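import Pool.Agent.W_MP_4f2e6f_h52.Inst

set_option autoImplicit false

namespace Pool.Agent.W_MP_4f2e6f_h52

theorem card8 (S : Finset (Fin 8)) : S.card =
    (decide ((0 : Fin 8) ∈ S)).toNat + (decide ((1 : Fin 8) ∈ S)).toNat +
    (decide ((2 : Fin 8) ∈ S)).toNat + (decide ((3 : Fin 8) ∈ S)).toNat +
    (decide ((4 : Fin 8) ∈ S)).toNat + (decide ((5 : Fin 8) ∈ S)).toNat +
    (decide ((6 : Fin 8) ∈ S)).toNat + (decide ((7 : Fin 8) ∈ S)).toNat := by
  have h : S.card = ∑ x : Fin 8, (decide (x ∈ S)).toNat := by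
    have h1 : ∀ x : Fin 8, (decide (x ∈ S)).toNat = if x ∈ S then 1 else 0 := by
      intro x
      by_cases hx : x ∈ S <;> simp [hx]
    rw [Finset.sum_congr rfl (fun x _ => h1 x), Finset.sum_ite_mem, Finset.univ_inter,
      Finset.card_eq_sum_ones]
  rw [h, Fin.sum_univ_eight]

theorem card4 (f : Fin 4 → Bool) :
    (Finset.univ.filter (fun j => f j = true)).card =
      (f 0).toNat + (f 1).toNat + (f 2).toNat + (f 3).toNat := by
  have h : (Finset.univ.filter (fun j => f j = true)).card = ∑ x : Fin 4, (f x).toNat := by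
    rw [Finset.card_filter]
    apply Finset.sum_congr rfl
    intro x _
    cases f x <;> simp
  rw [h, Fin.sum_univ_four]

section
variable {V : Type*} (G : SimpleGraph V) (c : Fin 4 → V)

theorem h3_1 (hG : TF G) (h01 : G.Adj (c 0) (c 1)) (h02 : G.Adj (c 0) (c 2))
    (h13 : G.Adj (c 1) (c 3)) (S : Finset (Fin 8)) (hS : Ind G1 S) :
    ∃ I : Finset (Fin 4),
      (∀ i ∈ I, ∀ j ∈ I, ¬ G.Adj (c i) (c j)) ∧ S.card ≤ I.card + 1 ∧
      ∀ i ∈ I, ∀ A, types1 A → i ∈ A → ∃ x ∈ S, hit1 x A := by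
  have n : ∀ x y : Fin 8, E1 x y = true → (decide (x ∈ S) && decide (y ∈ S)) = false := by
    intro x y hxy
    rw [Bool.and_eq_false_iff]
    by_contra hcon
    push Not at hcon
    simp only [ne_eq, Bool.not_eq_false, decide_eq_true_eq] at hcon
    exact hS x hcon.1 y hcon.2 hxy
  obtain ⟨i0, i1, i2, i3, h⟩ := key1 (decide ((0 : Fin 8) ∈ S)) (decide ((1 : Fin 8) ∈ S))
    (decide ((2 : Fin 8) ∈ S)) (decide ((3 : Fin 8) ∈ S)) (decide ((4 : Fin 8) ∈ S))
    (decide ((5 : Fin 8) ∈ S)) (decide ((6 : Fin 8) ∈ S)) (decide ((7 : Fin 8) ∈ S))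
    (by
      rw [n 0 2 (by decide), n 0 4 (by decide), n 0 7 (by decide), n 1 3 (by decide),
        n 1 4 (by decide), n 1 5 (by decide), n 2 5 (by decide), n 2 6 (by decide),
        n 3 6 (by decide), n 3 7 (by decide), n 4 6 (by decide), n 5 7 (by decide)]
      rfl)
  simp only [Bool.and_eq_true, Bool.not_eq_true', Bool.and_eq_false_iff, Bool.or_eq_true,
    Nat.ble_eq, decide_eq_true_eq] at h
  obtain ⟨⟨⟨⟨⟨⟨⟨⟨g01, g02⟩, g13⟩, g23⟩, r0⟩, r1⟩, r2⟩, r3⟩, hc⟩ := h
  refine ⟨Finset.univ.filter (fun j => (![i0, i1, i2, i3] : Fin 4 → Bool) j = true), ?_, ?_, ?_⟩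
  · have a03 : ¬ G.Adj (c 0) (c 3) := hG _ _ _ h01 h13
    have a12 : ¬ G.Adj (c 1) (c 2) := hG _ _ _ (G.adj_symm h01) h02
    intro i hi j hj hij
    rw [Finset.mem_filter] at hi hj
    replace hi := hi.2
    replace hj := hj.2
    fin_cases i <;> fin_cases j <;> simp at hi hj hij
    · subst hi; subst hj; simp at g01
    · subst hi; subst hj; simp at g02
    · exact a03 hij
    · subst hi; subst hj; simp at g01
    · exact a12 hij
    · subst hi; subst hj; simp at g13
    · subst hi; subst hj; simp at g02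
    · exact a12 (G.adj_symm hij)
    · subst hi; subst hj; simp at g23
    · exact a03 (G.adj_symm hij)
    · subst hi; subst hj; simp at g13
    · subst hi; subst hj; simp at g23
  · rw [card8, card4]
    simpa using hc
  · rintro i hi A ⟨t01, t02, t13, t23⟩ hiA
    rw [Finset.mem_filter] at hi
    replace hi := hi.2
    fin_cases i <;> simp at hi hiA
    · rw [hi] at r0
      rcases r0 with r | r | r
      · exact absurd r (by simp)
      · exact ⟨0, r, hiA⟩
      · exact ⟨1, r, hiA⟩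
    · rw [hi] at r1
      rcases r1 with r | r | r
      · exact absurd r (by simp)
      · exact ⟨2, r, hiA⟩
      · exact ⟨3, r, hiA⟩
    · rw [hi] at r2
      rcases r2 with r | ⟨r, r'⟩
      · exact absurd r (by simp)
      · by_cases h1A : (1 : Fin 4) ∈ A
        · rcases r' with (r' | r') | r'
          · exact ⟨2, r', h1A⟩
          · exact ⟨3, r', h1A⟩
          · exact ⟨4, r', hiA⟩
        · rcases r with r | r
          · exact ⟨4, r, hiA⟩
          · exact ⟨5, r, hiA, h1A⟩
    · rw [hi] at r3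
      rcases r3 with r | ⟨r, r'⟩
      · exact absurd r (by simp)
      · by_cases h0A : (0 : Fin 4) ∈ A
        · rcases r' with (r' | r') | r'
          · exact ⟨0, r', h0A⟩
          · exact ⟨1, r', h0A⟩
          · exact ⟨6, r', hiA⟩
        · rcases r with r | r
          · exact ⟨6, r, hiA⟩
          · exact ⟨7, r, hiA, h0A⟩

theorem h3_2 (h23 : ¬ G.Adj (c 2) (c 3)) (h12 : ¬ G.Adj (c 1) (c 2))
    (h13 : ¬ G.Adj (c 1) (c 3)) (S : Finset (Fin 8)) (hS : Ind G2 S) :
    ∃ I : Finset (Fin 4),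
      (∀ i ∈ I, ∀ j ∈ I, ¬ G.Adj (c i) (c j)) ∧ S.card ≤ I.card + 1 ∧
      ∀ i ∈ I, ∀ A, types2 A → i ∈ A → ∃ x ∈ S, hit2 x A := by
  have n : ∀ x y : Fin 8, E2 x y = true → (decide (x ∈ S) && decide (y ∈ S)) = false := by
    intro x y hxy
    rw [Bool.and_eq_false_iff]
    by_contra hcon
    push Not at hcon
    simp only [ne_eq, Bool.not_eq_false, decide_eq_true_eq] at hcon
    exact hS x hcon.1 y hcon.2 hxy
  obtain ⟨i0, i1, i2, i3, h⟩ := key2 (decide ((0 : Fin 8) ∈ S)) (decide ((1 : Fin 8) ∈ S))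
    (decide ((2 : Fin 8) ∈ S)) (decide ((3 : Fin 8) ∈ S)) (decide ((4 : Fin 8) ∈ S))
    (decide ((5 : Fin 8) ∈ S)) (decide ((6 : Fin 8) ∈ S)) (decide ((7 : Fin 8) ∈ S))
    (by
      rw [n 0 5 (by decide), n 0 7 (by decide), n 1 4 (by decide), n 1 5 (by decide),
        n 2 3 (by decide), n 2 4 (by decide), n 3 5 (by decide), n 3 7 (by decide),
        n 4 6 (by decide), n 4 7 (by decide), n 5 6 (by decide)]
      rfl)
  simp only [Bool.and_eq_true, Bool.not_eq_true', Bool.and_eq_false_iff, Bool.or_eq_true,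
    Nat.ble_eq, decide_eq_true_eq] at h
  obtain ⟨⟨⟨⟨⟨⟨⟨g01, g02⟩, g03⟩, r0⟩, r1⟩, r2⟩, r3⟩, hc⟩ := h
  refine ⟨Finset.univ.filter (fun j => (![i0, i1, i2, i3] : Fin 4 → Bool) j = true), ?_, ?_, ?_⟩
  · intro i hi j hj hij
    rw [Finset.mem_filter] at hi hj
    replace hi := hi.2
    replace hj := hj.2
    fin_cases i <;> fin_cases j <;> simp at hi hj hij
    · subst hi; subst hj; simp at g01
    · subst hi; subst hj; simp at g02
    · subst hi; subst hj; simp at g03
    · subst hi; subst hj; simp at g01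
    · exact h12 hij
    · exact h13 hij
    · subst hi; subst hj; simp at g02
    · exact h12 (G.adj_symm hij)
    · exact h23 hij
    · subst hi; subst hj; simp at g03
    · exact h13 (G.adj_symm hij)
    · exact h23 (G.adj_symm hij)
  · rw [card8, card4]
    simpa using hc
  · rintro i hi A - hiA
    rw [Finset.mem_filter] at hi
    replace hi := hi.2
    fin_cases i <;> simp at hi hiA
    · rw [hi] at r0
      rcases r0 with r | r
      · exact absurd r (by simp)
      · exact ⟨4, r, hiA⟩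
    · rw [hi] at r1
      rcases r1 with r | r | r
      · exact absurd r (by simp)
      · exact ⟨1, r, hiA⟩
      · exact ⟨3, r, hiA⟩
    · rw [hi] at r2
      rcases r2 with r | r | r
      · exact absurd r (by simp)
      · exact ⟨0, r, hiA⟩
      · exact ⟨2, r, hiA⟩
    · rw [hi] at r3
      rcases r3 with r | r | r
      · exact absurd r (by simp)
      · exact ⟨6, r, hiA⟩
      · exact ⟨7, r, hiA⟩

/-- a triangle-free graph with a 4-cycle can be enlarged by 4 vertices with the independence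
number growing by at most one -/
theorem add4_cycle [Fintype V] (a : ℕ) (hG : TF G) (hA : AL G a) (hc : Function.Injective c)
    (h01 : G.Adj (c 0) (c 1)) (h02 : G.Adj (c 0) (c 2))
    (h13 : G.Adj (c 1) (c 3)) (h23 : G.Adj (c 2) (c 3)) :
    TF (graph' G c G1 hit1) ∧ AL (graph' G c G1 hit1) (a + 1) := by
  have h4 : ∀ w, w ∉ Set.range c → types1 (tr G c w) := by
    intro w _
    refine ⟨?_, ?_, ?_, ?_⟩ <;> rintro ⟨hi, hj⟩ <;> rw [mem_tr] at hi hj
    · exact hG _ _ _ hi h01 hj
    · exact hG _ _ _ hi h02 hj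
    · exact hG _ _ _ hi h13 hj
    · exact hG _ _ _ hi h23 hj
  constructor
  · refine graph'_TF G c hG G1 hit1 types1 TF_G1 h4 ?_ ?_
    · intro x A B _ _ hx hx'
      fin_cases x
      · exact ⟨0, hx, hx'⟩
      · exact ⟨0, hx, hx'⟩
      · exact ⟨1, hx, hx'⟩
      · exact ⟨1, hx, hx'⟩
      · exact ⟨2, hx, hx'⟩
      · exact ⟨2, hx.1, hx'.1⟩
      · exact ⟨3, hx, hx'⟩
      · exact ⟨3, hx.1, hx'.1⟩
    · rintro x y A ⟨t01, t02, t13, t23⟩ hxy hx hy
      have hxy : E1 x y = true := hxy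
      fin_cases x <;> fin_cases y <;> first
        | exact absurd hxy (by decide)
        | (simp only [hit1] at hx hy; tauto)
  · exact graph'_AL G c hc a 1 hA G1 hit1 types1 h4 (h3_1 G c hG h01 h02 h13)

/-- a triangle-free graph without 4-cycles with a vertex of degree at least 3 can be enlarged
by 4 vertices with the independence number growing by at most one -/
theorem add4_star [Fintype V] (a : ℕ) (hG : TF G) (hA : AL G a) (hc : Function.Injective c)
    (h01 : G.Adj (c 0) (c 1)) (h02 : G.Adj (c 0) (c 2)) (h03 : G.Adj (c 0) (c 3))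
    (hno : ∀ w, w ∉ Set.range c → ∀ i j : Fin 4, i ≠ j → i ≠ 0 → j ≠ 0 →
      ¬ (G.Adj w (c i) ∧ G.Adj w (c j))) :
    TF (graph' G c G2 hit2) ∧ AL (graph' G c G2 hit2) (a + 1) := by
  have h4 : ∀ w, w ∉ Set.range c → types2 (tr G c w) := by
    intro w hw i hi j hj
    by_contra hij
    rw [mem_tr] at hi hj
    by_cases i0 : i = 0
    · subst i0
      fin_cases j
      · exact hij rfl
      · exact hG _ _ _ hi h01 hj
      · exact hG _ _ _ hi h02 hj
      · exact hG _ _ _ hi h03 hj
    · by_cases j0 : j = 0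
      · subst j0
        fin_cases i
        · exact hij rfl
        · exact hG _ _ _ hj h01 hi
        · exact hG _ _ _ hj h02 hi
        · exact hG _ _ _ hj h03 hi
      · exact hno w hw i j hij i0 j0 ⟨hi, hj⟩
  constructor
  · refine graph'_TF G c hG G2 hit2 types2 TF_G2 h4 ?_ ?_
    · intro x A B _ _ hx hx'
      fin_cases x
      · exact ⟨2, hx, hx'⟩
      · exact ⟨1, hx, hx'⟩
      · exact ⟨2, hx, hx'⟩
      · exact ⟨1, hx, hx'⟩
      · exact ⟨0, hx, hx'⟩
      · exact hx.elim
      · exact ⟨3, hx, hx'⟩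
      · exact ⟨3, hx, hx'⟩
    · intro x y A hA' hxy hx hy
      have hxy : E2 x y = true := hxy
      fin_cases x <;> fin_cases y <;> first
        | exact absurd hxy (by decide)
        | (simp only [hit2] at hx hy; exact absurd (hA' _ hx _ hy) (by decide))
        | (simp only [hit2] at hx hy)
  · refine graph'_AL G c hc a 1 hA G2 hit2 types2 h4 (h3_2 G c ?_ ?_ ?_)
    · exact hG _ _ _ (G.adj_symm h02) h03
    · exact hG _ _ _ (G.adj_symm h01) h02
    · exact hG _ _ _ (G.adj_symm h01) h03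

end

end Pool.Agent.W_MP_4f2e6f_h52
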