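import Mathlib

set_option autoImplicit false

namespace Pool.Agent.W_MP_4f2e6f_h52

/-- triangle-free, in elementary form -/
def TF {V : Type*} (G : SimpleGraph V) : Prop :=
  ∀ a b c : V, G.Adj a b → G.Adj b c → ¬ G.Adj a c

/-- independent finite set -/
def Ind {V : Type*} (G : SimpleGraph V) (S : Finset V) : Prop :=
  ∀ x ∈ S, ∀ y ∈ S, ¬ G.Adj x y

/-- all independent sets have at most `a` elements -/
def AL {V : Type*} (G : SimpleGraph V) (a : ℕ) : Prop :=
  ∀ S : Finset V, Ind G S → S.card ≤ a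

section gadget

variable {V : Type*} (G : SimpleGraph V) {p q : ℕ} (c : Fin p → V)

open Classical in
/-- the trace of a vertex on the core -/
noncomputable def tr (w : V) : Finset (Fin p) :=
  Finset.univ.filter (fun i => G.Adj w (c i))

theorem mem_tr (w : V) (i : Fin p) : i ∈ tr G c w ↔ G.Adj w (c i) := by
  classical
  simp [tr]

/-- the adjacency of the modified graph -/
def adj' (E : SimpleGraph (Fin q)) (hit : Fin q → Finset (Fin p) → Prop) :
    ({v : V // v ∉ Set.range c} ⊕ Fin q) → ({v : V // v ∉ Set.range c} ⊕ Fin q) → Prop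
  | Sum.inl w, Sum.inl w' => G.Adj w.1 w'.1
  | Sum.inl w, Sum.inr x => hit x (tr G c w.1)
  | Sum.inr x, Sum.inl w => hit x (tr G c w.1)
  | Sum.inr x, Sum.inr y => E.Adj x y

/-- the modified graph: the core is removed and replaced by the graph `E` -/
def graph' (E : SimpleGraph (Fin q)) (hit : Fin q → Finset (Fin p) → Prop) :
    SimpleGraph ({v : V // v ∉ Set.range c} ⊕ Fin q) where
  Adj := adj' G c E hit
  symm := by
    refine ⟨?_⟩
    rintro (w | x) (w' | y) h
    · exact G.adj_symm h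
    · exact h
    · exact h
    · exact E.adj_symm h
  loopless := by
    refine ⟨?_⟩
    rintro (w | x) h
    · exact G.loopless.irrefl _ h
    · exact E.loopless.irrefl _ h

theorem graph'_TF (hG : TF G) (E : SimpleGraph (Fin q)) (hit : Fin q → Finset (Fin p) → Prop)
    (types : Finset (Fin p) → Prop) (hE : TF E)
    (h4 : ∀ w, w ∉ Set.range c → types (tr G c w))
    (h1 : ∀ x A B, types A → types B → hit x A → hit x B → ∃ i, i ∈ A ∧ i ∈ B)
    (h2 : ∀ x y A, types A → E.Adj x y → hit x A → ¬ hit y A) :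
    TF (graph' G c E hit) := by
  have key1 : ∀ (w w' : {v : V // v ∉ Set.range c}) (x : Fin q), G.Adj w.1 w'.1 →
      hit x (tr G c w.1) → hit x (tr G c w'.1) → False := by
    intro w w' x h hx hx'
    obtain ⟨i, hi, hi'⟩ := h1 x _ _ (h4 _ w.2) (h4 _ w'.2) hx hx'
    rw [mem_tr] at hi hi'
    exact hG _ _ _ h hi' hi
  rintro (u | x) (v | y) (w | z) h1' h2' h3'
  · exact hG _ _ _ h1' h2' h3'
  · exact key1 u v z h1' h3' h2'
  · exact key1 u w y h3' h1' h2'
  · exact h2 y z _ (h4 _ u.2) h2' h1' h3'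
  · exact key1 v w x h2' h1' h3'
  · exact h2 x z _ (h4 _ v.2) h3' h1' h2'
  · exact h2 x y _ (h4 _ w.2) h1' h3' h2'
  · exact hE _ _ _ h1' h2' h3'

theorem graph'_AL (hc : Function.Injective c) (a K : ℕ) (hA : AL G a)
    (E : SimpleGraph (Fin q)) (hit : Fin q → Finset (Fin p) → Prop)
    (types : Finset (Fin p) → Prop)
    (h4 : ∀ w, w ∉ Set.range c → types (tr G c w))
    (h3 : ∀ S : Finset (Fin q), Ind E S → ∃ I : Finset (Fin p),
      (∀ i ∈ I, ∀ j ∈ I, ¬ G.Adj (c i) (c j)) ∧ S.card ≤ I.card + K ∧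
      ∀ i ∈ I, ∀ A, types A → i ∈ A → ∃ x ∈ S, hit x A) :
    AL (graph' G c E hit) (a + K) := by
  classical
  intro S hS
  have hSX : Ind E S.toRight := by
    intro x hx y hy h
    rw [Finset.mem_toRight] at hx hy
    exact hS _ hx _ hy h
  obtain ⟨I, hI, hcard, hhit⟩ := h3 _ hSX
  have hind : Ind G (S.toLeft.map (Function.Embedding.subtype _) ∪ I.map ⟨c, hc⟩) := by
    have mixed : ∀ w : {v : V // v ∉ Set.range c}, w ∈ S.toLeft → ∀ i ∈ I, ¬ G.Adj w.1 (c i) := by
      intro w hw i hi h
      obtain ⟨x, hx, hxw⟩ := hhit i hi _ (h4 _ w.2) ((mem_tr G c _ i).2 h)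
      rw [Finset.mem_toLeft] at hw
      rw [Finset.mem_toRight] at hx
      exact hS _ hw _ hx hxw
    intro x hx y hy h
    rw [Finset.mem_union, Finset.mem_map, Finset.mem_map] at hx hy
    rcases hx with ⟨w, hw, rfl⟩ | ⟨i, hi, rfl⟩ <;> rcases hy with ⟨w', hw', rfl⟩ | ⟨j, hj, rfl⟩
    · rw [Finset.mem_toLeft] at hw hw'
      exact hS _ hw _ hw' h
    · exact mixed w hw j hj h
    · exact mixed w' hw' i hi (G.adj_symm h)
    · exact hI i hi j hj h
  have hle := hA _ hind
  rw [Finset.card_union_of_disjoint, Finset.card_map, Finset.card_map] at hle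
  · have := Finset.card_toLeft_add_card_toRight (u := S)
    omega
  · rw [Finset.disjoint_left]
    intro x hx hx'
    rw [Finset.mem_map] at hx hx'
    obtain ⟨w, -, rfl⟩ := hx
    obtain ⟨i, -, hi⟩ := hx'
    exact w.2 ⟨i, hi⟩

theorem card_graph' [Fintype V] (hc : Function.Injective c) :
    Nat.card ({v : V // v ∉ Set.range c} ⊕ Fin q) + p = Fintype.card V + q := by
  classical
  rw [Nat.card_eq_fintype_card, Fintype.card_sum, Fintype.card_fin, Fintype.card_subtype_compl]
  have h1 : Fintype.card {x // x ∈ Set.range c} = p := by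
    have := Set.card_range_of_injective hc
    exact this.trans (Fintype.card_fin p)
  have h2 : Fintype.card {x // x ∈ Set.range c} ≤ Fintype.card V := Fintype.card_subtype_le _
  omega

end gadget

end Pool.Agent.W_MP_4f2e6f_h52
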