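import Pool.Agent.W_MP_4f2e6f_h52.Gadget

set_option autoImplicit false

namespace Pool.Agent.W_MP_4f2e6f_h52

/-- the new graph for the 4-cycle gadget -/
def E1 : Fin 8 → Fin 8 → Bool := fun x y =>
  (x, y) ∈ ([(0,2),(0,4),(0,7),(1,3),(1,4),(1,5),(2,5),(2,6),(3,6),(3,7),(4,6),(5,7),
    (2,0),(4,0),(7,0),(3,1),(4,1),(5,1),(5,2),(6,2),(6,3),(7,3),(6,4),(7,5)] : List (Fin 8 × Fin 8))

/-- the new graph for the star gadget -/
def E2 : Fin 8 → Fin 8 → Bool := fun x y =>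
  (x, y) ∈ ([(0,5),(0,7),(1,4),(1,5),(2,3),(2,4),(3,5),(3,7),(4,6),(4,7),(5,6),
    (5,0),(7,0),(4,1),(5,1),(3,2),(4,2),(5,3),(7,3),(6,4),(7,4),(6,5)] : List (Fin 8 × Fin 8))

/-- graph of a symmetric irreflexive Boolean function -/
def gr (E : Fin 8 → Fin 8 → Bool) (hs : ∀ x y, E x y = E y x) (hl : ∀ x, E x x = false) :
    SimpleGraph (Fin 8) where
  Adj x y := E x y = true
  symm := ⟨fun x y h => by rw [hs]; exact h⟩
  loopless := ⟨fun x h => by rw [hl] at h; exact Bool.noConfusion h⟩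

def G1 : SimpleGraph (Fin 8) := gr E1 (by decide) (by decide)
def G2 : SimpleGraph (Fin 8) := gr E2 (by decide) (by decide)

theorem TF_G1 : TF G1 := by
  have : ∀ a b c : Fin 8, E1 a b = true → E1 b c = true → E1 a c = false := by decide
  intro a b c h1 h2 h3
  have := this a b c h1 h2
  rw [show E1 a c = true from h3] at this
  exact Bool.noConfusion this

theorem TF_G2 : TF G2 := by
  have : ∀ a b c : Fin 8, E2 a b = true → E2 b c = true → E2 a c = false := by decide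
  intro a b c h1 h2 h3
  have := this a b c h1 h2
  rw [show E2 a c = true from h3] at this
  exact Bool.noConfusion this

def hit1 : Fin 8 → Finset (Fin 4) → Prop
  | 0, A => 0 ∈ A
  | 1, A => 0 ∈ A
  | 2, A => 1 ∈ A
  | 3, A => 1 ∈ A
  | 4, A => 2 ∈ A
  | 5, A => 2 ∈ A ∧ 1 ∉ A
  | 6, A => 3 ∈ A
  | 7, A => 3 ∈ A ∧ 0 ∉ A

def types1 (A : Finset (Fin 4)) : Prop :=
  ¬ (0 ∈ A ∧ 1 ∈ A) ∧ ¬ (0 ∈ A ∧ 2 ∈ A) ∧ ¬ (1 ∈ A ∧ 3 ∈ A) ∧ ¬ (2 ∈ A ∧ 3 ∈ A)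

def hit2 : Fin 8 → Finset (Fin 4) → Prop
  | 0, A => 2 ∈ A
  | 1, A => 1 ∈ A
  | 2, A => 2 ∈ A
  | 3, A => 1 ∈ A
  | 4, A => 0 ∈ A
  | 5, _ => False
  | 6, A => 3 ∈ A
  | 7, A => 3 ∈ A

def types2 (A : Finset (Fin 4)) : Prop :=
  ∀ i ∈ A, ∀ j ∈ A, i = j

theorem key1 : ∀ s0 s1 s2 s3 s4 s5 s6 s7 : Bool,
    (!(s0 && s2) && !(s0 && s4) && !(s0 && s7) && !(s1 && s3) && !(s1 && s4) && !(s1 && s5) &&
      !(s2 && s5) && !(s2 && s6) && !(s3 && s6) && !(s3 && s7) && !(s4 && s6) && !(s5 && s7)) = true →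
    ∃ i0 i1 i2 i3 : Bool,
      (!(i0 && i1) && !(i0 && i2) && !(i1 && i3) && !(i2 && i3) &&
        (!i0 || (s0 || s1)) && (!i1 || (s2 || s3)) &&
        (!i2 || ((s4 || s5) && (s2 || s3 || s4))) &&
        (!i3 || ((s6 || s7) && (s0 || s1 || s6))) &&
        Nat.ble (s0.toNat + s1.toNat + s2.toNat + s3.toNat + s4.toNat + s5.toNat + s6.toNat + s7.toNat)
          (i0.toNat + i1.toNat + i2.toNat + i3.toNat + 1)) = true := by
  decide

theorem key2 : ∀ s0 s1 s2 s3 s4 s5 s6 s7 : Bool,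
    (!(s0 && s5) && !(s0 && s7) && !(s1 && s4) && !(s1 && s5) && !(s2 && s3) && !(s2 && s4) &&
      !(s3 && s5) && !(s3 && s7) && !(s4 && s6) && !(s4 && s7) && !(s5 && s6)) = true →
    ∃ i0 i1 i2 i3 : Bool,
      (!(i0 && i1) && !(i0 && i2) && !(i0 && i3) &&
        (!i0 || s4) && (!i1 || (s1 || s3)) &&
        (!i2 || (s0 || s2)) &&
        (!i3 || (s6 || s7)) &&
        Nat.ble (s0.toNat + s1.toNat + s2.toNat + s3.toNat + s4.toNat + s5.toNat + s6.toNat + s7.toNat)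
          (i0.toNat + i1.toNat + i2.toNat + i3.toNat + 1)) = true := by
  decide

end Pool.Agent.W_MP_4f2e6f_h52
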