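import Pool.Agent.W_MP_4f2e6f_h52.Apply

set_option autoImplicit false

namespace Pool.Agent.W_MP_4f2e6f_h52

theorem TF_iff {V : Type*} (G : SimpleGraph V) : G.CliqueFree 3 ↔ TF G := by
  classical
  constructor
  · intro h a b c hab hbc hac
    exact h {a, b, c} (SimpleGraph.is3Clique_triple_iff.2 ⟨hab, hac, hbc⟩)
  · intro h s hs
    obtain ⟨a, b, c, hab, hac, hbc, -⟩ := SimpleGraph.is3Clique_iff.1 hs
    exact h a b c hab hbc hac

theorem AL_iff {V : Type*} (G : SimpleGraph V) (a : ℕ) : Gᶜ.CliqueFree (a + 1) ↔ AL G a := by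
  classical
  rw [SimpleGraph.cliqueFree_compl]
  constructor
  · intro h S hS
    by_contra hcard
    push Not at hcard
    obtain ⟨T, hT, hTc⟩ := Finset.exists_subset_card_eq (Nat.succ_le_of_lt hcard)
    refine h T ⟨?_, hTc⟩
    intro x hx y hy _
    exact hS x (hT hx) y (hT hy)
  · intro h T hT
    have := h T (by
      intro x hx y hy hxy
      exact hT.isIndepSet hx hy (G.ne_of_adj hxy) hxy)
    rw [hT.card_eq] at this
    omega

theorem TF_comap {V W : Type*} (G : SimpleGraph V) (f : W → V) (h : TF G) : TF (G.comap f) :=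
  fun a b c hab hbc hac => h (f a) (f b) (f c) hab hbc hac

theorem AL_comap {V W : Type*} (G : SimpleGraph V) (f : W → V) (hf : Function.Injective f)
    (a : ℕ) (h : AL G a) : AL (G.comap f) a := by
  intro S hS
  have := h (S.map ⟨f, hf⟩) (by
    intro x hx y hy hxy
    rw [Finset.mem_map] at hx hy
    obtain ⟨u, hu, rfl⟩ := hx
    obtain ⟨v, hv, rfl⟩ := hy
    exact hS u hu v hv hxy)
  rwa [Finset.card_map] at this

/-- there is a triangle-free graph on `n` vertices with no independent set of size `t` -/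
def Good (n t : ℕ) : Prop :=
  ∃ G : SimpleGraph (Fin n), G.CliqueFree 3 ∧ Gᶜ.CliqueFree t

theorem good_of_type {W : Type*} [Finite W] (n a : ℕ) (hn : n ≤ Nat.card W) (G : SimpleGraph W)
    (h : TF G) (hA : AL G a) : Good n (a + 1) := by
  classical
  have : Fintype W := Fintype.ofFinite W
  obtain ⟨f⟩ : Nonempty (Fin n ↪ W) := by
    apply Function.Embedding.nonempty_of_card_le
    rw [Nat.card_eq_fintype_card] at hn
    simpa using hn
  exact ⟨G.comap f, (TF_iff _).2 (TF_comap G f h), (AL_iff _ _).2 (AL_comap G f f.injective a hA)⟩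

theorem bound (a : ℕ) : ∀ (V : Type) [Fintype V] (G : SimpleGraph V), TF G → AL G a →
    Fintype.card V ≤ (a + 1) ^ 2 := by
  classical
  induction a with
  | zero =>
    intro V _ G _ hA
    by_contra h
    have hpos : 0 < Fintype.card V := by omega
    obtain ⟨v⟩ := Fintype.card_pos_iff.1 hpos
    have := hA {v} (by
      intro x hx y hy hxy
      rw [Finset.mem_singleton] at hx hy
      subst hx; subst hy
      exact G.loopless.irrefl _ hxy)
    simp at this
  | succ a ih =>
    intro V _ G hG hA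
    by_cases hV : Nonempty V
    · obtain ⟨v⟩ := hV
      have h1 : Fintype.card {x : V // x ≠ v ∧ ¬ G.Adj v x} ≤ (a + 1) ^ 2 := by
        refine ih _ (G.comap Subtype.val) (TF_comap _ _ hG) ?_
        intro S hS
        have := hA (insert v (S.map (Function.Embedding.subtype _))) (by
          intro x hx y hy hxy
          rw [Finset.mem_insert, Finset.mem_map] at hx hy
          rcases hx with rfl | ⟨u, hu, rfl⟩ <;> rcases hy with rfl | ⟨w, hw, rfl⟩
          · exact G.loopless.irrefl _ hxy
          · exact w.2.2 hxy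
          · exact u.2.2 (G.adj_symm hxy)
          · exact hS u hu w hw hxy)
        rw [Finset.card_insert_of_notMem, Finset.card_map] at this
        · omega
        · rw [Finset.mem_map]
          rintro ⟨u, _, hu⟩
          exact u.2.1 hu
      have h2 : (Finset.univ.filter (fun x => G.Adj v x)).card ≤ a + 1 := by
        apply hA
        intro x hx y hy hxy
        rw [Finset.mem_filter] at hx hy
        exact hG _ _ _ hx.2 hxy hy.2
      have h3 : (Finset.univ : Finset V) ⊆ {v} ∪ Finset.univ.filter (fun x => G.Adj v x) ∪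
          Finset.univ.filter (fun x => x ≠ v ∧ ¬ G.Adj v x) := by
        intro x _
        simp only [Finset.mem_union, Finset.mem_singleton, Finset.mem_filter, Finset.mem_univ,
          true_and]
        tauto
      have h4 := Finset.card_le_card h3
      have h5 := Finset.card_union_le ({v} ∪ Finset.univ.filter (fun x => G.Adj v x))
        (Finset.univ.filter (fun x => x ≠ v ∧ ¬ G.Adj v x))
      have h6 := Finset.card_union_le {v} (Finset.univ.filter (fun x => G.Adj v x))
      rw [Finset.card_univ] at h4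
      rw [Finset.card_singleton] at h6
      rw [Fintype.card_subtype] at h1
      nlinarith
    · rw [not_nonempty_iff] at hV
      rw [Fintype.card_eq_zero]
      positivity

theorem not_good_large (t : ℕ) : ∃ N, ¬ Good N t := by
  refine ⟨(t + 1) ^ 2 + 1, ?_⟩
  rintro ⟨G, h1, h2⟩
  have h3 : Gᶜ.CliqueFree (t + 1) := h2.mono (by omega)
  have := bound t _ G ((TF_iff _).1 h1) ((AL_iff _ _).1 h3)
  rw [Fintype.card_fin] at this
  omega

theorem good_mono {n m t : ℕ} (h : Good n t) (hm : m ≤ n) : Good m t := by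
  obtain ⟨G, h1, h2⟩ := h
  cases t with
  | zero => exact absurd h2 SimpleGraph.not_cliqueFree_zero
  | succ a =>
    refine good_of_type m a ?_ G ((TF_iff _).1 h1) ((AL_iff _ _).1 h2)
    simpa using hm

theorem good_mono' {n t u : ℕ} (h : Good n t) (hu : t ≤ u) : Good n u := by
  obtain ⟨G, h1, h2⟩ := h
  exact ⟨G, h1, h2.mono hu⟩

/-- a maximal triangle-free graph above a given one -/
theorem exists_max {V : Type*} [Finite V] (G : SimpleGraph V) (hG : TF G) :
    ∃ H : SimpleGraph V, G ≤ H ∧ TF H ∧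
      ∀ x y, x ≠ y → ¬ H.Adj x y → ∃ z, H.Adj x z ∧ H.Adj z y := by
  classical
  obtain ⟨H, hGH, hH⟩ := (Set.toFinite {H : SimpleGraph V | TF H}).exists_le_maximal hG
  have hTF : TF H := hH.prop
  refine ⟨H, hGH, hTF, ?_⟩
  intro x y hxy hna
  by_contra hcon
  push Not at hcon
  let H' : SimpleGraph V :=
    { Adj := fun a b => H.Adj a b ∨ (a = x ∧ b = y) ∨ (a = y ∧ b = x)
      symm := ⟨fun a b h => by
        rcases h with h | h | h
        · exact Or.inl (H.adj_symm h)
        · exact Or.inr (Or.inr ⟨h.2, h.1⟩)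
        · exact Or.inr (Or.inl ⟨h.2, h.1⟩)⟩
      loopless := ⟨fun a h => by
        rcases h with h | h | h
        · exact H.loopless.irrefl _ h
        · exact hxy (h.1.symm.trans h.2)
        · exact hxy (h.2.symm.trans h.1)⟩ }
  have hle : H ≤ H' := fun a b h => Or.inl h
  have hc' : ∀ z, H.Adj y z → ¬ H.Adj z x := fun z h h' => hcon z (H.adj_symm h') (H.adj_symm h)
  have hTF' : TF H' := by
    intro a b c hab hbc hac
    rcases hab with hab | ⟨rfl, rfl⟩ | ⟨rfl, rfl⟩ <;> rcases hbc with hbc | ⟨h3, h4⟩ | ⟨h3, h4⟩ <;>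
      rcases hac with hac | ⟨h5, h6⟩ | ⟨h5, h6⟩ <;> subst_vars <;>
      first
        | exact hTF _ _ _ hab hbc hac
        | exact hcon _ hab hbc
        | exact hc' _ hab hbc
        | exact hcon _ (H.adj_symm hab) hac
        | exact hc' _ (H.adj_symm hab) hac
        | exact hcon _ hac (H.adj_symm hbc)
        | exact hc' _ hac (H.adj_symm hbc)
        | exact hxy rfl
        | exact H.loopless.irrefl _ hab
        | exact H.loopless.irrefl _ hbc
        | exact H.loopless.irrefl _ hac
        | exact absurd rfl hxy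
  exact hna (hH.le_of_ge hTF' hle (Or.inr (Or.inl ⟨rfl, rfl⟩)))

/-- a vertex of degree at least three -/
theorem exists_deg3 {V : Type*} [Fintype V] (H : SimpleGraph V) (hcard : 6 ≤ Fintype.card V)
    (hd : ∀ x y, x ≠ y → ¬ H.Adj x y → ∃ z, H.Adj x z ∧ H.Adj z y) :
    ∃ w v1 v2 v3, H.Adj w v1 ∧ H.Adj w v2 ∧ H.Adj w v3 ∧ v1 ≠ v2 ∧ v1 ≠ v3 ∧ v2 ≠ v3 := by
  classical
  by_contra hcon
  push Not at hcon
  have hdeg : ∀ w, (Finset.univ.filter (fun x => H.Adj w x)).card ≤ 2 := by
    intro w
    by_contra h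
    push Not at h
    obtain ⟨a, b, c, ha, hb, hc, hab, hac, hbc⟩ := Finset.two_lt_card_iff.1 h
    simp only [Finset.mem_filter, Finset.mem_univ, true_and] at ha hb hc
    exact hbc (hcon w a b c ha hb hc hab hac)
  obtain ⟨v⟩ : Nonempty V := Fintype.card_pos_iff.1 (by omega)
  have hsub : (Finset.univ : Finset V) ⊆ {v} ∪ Finset.univ.filter (fun x => H.Adj v x) ∪
      (Finset.univ.filter (fun x => H.Adj v x)).biUnion
        (fun u => (Finset.univ.filter (fun x => H.Adj u x)).erase v) := by
    intro x _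
    simp only [Finset.mem_union, Finset.mem_singleton, Finset.mem_filter, Finset.mem_univ,
      true_and, Finset.mem_biUnion, Finset.mem_erase]
    by_cases hx : x = v
    · exact Or.inl (Or.inl hx)
    · by_cases hvx : H.Adj v x
      · exact Or.inl (Or.inr hvx)
      · obtain ⟨z, hz1, hz2⟩ := hd v x (Ne.symm hx) hvx
        exact Or.inr ⟨z, hz1, hx, hz2⟩
  have h1 := Finset.card_le_card hsub
  have h2 := Finset.card_union_le ({v} ∪ Finset.univ.filter (fun x => H.Adj v x))
    ((Finset.univ.filter (fun x => H.Adj v x)).biUnion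
        (fun u => (Finset.univ.filter (fun x => H.Adj u x)).erase v))
  have h3 := Finset.card_union_le {v} (Finset.univ.filter (fun x => H.Adj v x))
  have h4 : ((Finset.univ.filter (fun x => H.Adj v x)).biUnion
        (fun u => (Finset.univ.filter (fun x => H.Adj u x)).erase v)).card ≤
      (Finset.univ.filter (fun x => H.Adj v x)).card * 1 := by
    apply Finset.card_biUnion_le_card_mul
    intro u hu
    simp only [Finset.mem_filter, Finset.mem_univ, true_and] at hu
    rw [Finset.card_erase_of_mem]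
    · have := hdeg u
      omega
    · simp only [Finset.mem_filter, Finset.mem_univ, true_and]
      exact H.adj_symm hu
  rw [Finset.card_univ] at h1
  rw [Finset.card_singleton] at h3
  have h5 := hdeg v
  omega

theorem inj4 {V : Type*} {a b c d : V} (h1 : a ≠ b) (h2 : a ≠ c) (h3 : a ≠ d) (h4 : b ≠ c)
    (h5 : b ≠ d) (h6 : c ≠ d) : Function.Injective (![a, b, c, d] : Fin 4 → V) := by
  intro i j hij
  fin_cases i <;> fin_cases j <;> simp at hij <;> first
    | rfl
    | exact absurd hij (by assumption)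
    | exact absurd hij.symm (by assumption)

theorem step {V : Type} [Fintype V] (G : SimpleGraph V) (a : ℕ) (hG : TF G) (hA : AL G a)
    (hcard : 6 ≤ Fintype.card V) : Good (Fintype.card V + 4) (a + 1 + 1) := by
  classical
  obtain ⟨H, hGH, hH, hd⟩ := exists_max G hG
  have hHA : AL H a := by
    intro S hS
    apply hA
    intro x hx y hy hxy
    exact hS x hx y hy (hGH hxy)
  by_cases h4 : ∃ x y z t, H.Adj x y ∧ H.Adj x z ∧ H.Adj y t ∧ H.Adj z t ∧ x ≠ t ∧ y ≠ z
  · obtain ⟨x, y, z, t, hxy, hxz, hyt, hzt, hxt, hyz⟩ := h4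
    have hc : Function.Injective (![x, y, z, t] : Fin 4 → V) :=
      inj4 (H.ne_of_adj hxy) (H.ne_of_adj hxz) hxt hyz (H.ne_of_adj hyt) (H.ne_of_adj hzt)
    obtain ⟨h1, h2⟩ := add4_cycle H ![x, y, z, t] a hH hHA hc hxy hxz hyt hzt
    refine good_of_type _ _ ?_ _ h1 h2
    have := card_graph' (q := 8) (![x, y, z, t] : Fin 4 → V) hc
    omega
  · push Not at h4
    obtain ⟨w, v1, v2, v3, a1, a2, a3, n12, n13, n23⟩ := exists_deg3 H hcard hd
    have hc : Function.Injective (![w, v1, v2, v3] : Fin 4 → V) :=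
      inj4 (H.ne_of_adj a1) (H.ne_of_adj a2) (H.ne_of_adj a3) n12 n13 n23
    have hv : ∀ i : Fin 4, i ≠ 0 → H.Adj w ((![w, v1, v2, v3] : Fin 4 → V) i) := by
      intro i hi
      fin_cases i
      · exact absurd rfl hi
      · exact a1
      · exact a2
      · exact a3
    obtain ⟨h1, h2⟩ := add4_star H ![w, v1, v2, v3] a hH hHA hc a1 a2 a3 (by
      intro u hu i j hij hi hj ⟨hui, huj⟩
      have hwu : w ≠ u := fun h => hu ⟨0, h⟩
      exact hij (hc (h4 w _ _ u (hv i hi) (hv j hj) (H.adj_symm hui) (H.adj_symm huj) hwu)))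
    refine good_of_type _ _ ?_ _ h1 h2
    have := card_graph' (q := 8) (![w, v1, v2, v3] : Fin 4 → V) hc
    omega

/-- three disjoint edges -/
def M3 : SimpleGraph (Fin 6) where
  Adj x y := x ≠ y ∧ x.val / 2 = y.val / 2
  symm := ⟨fun _ _ h => ⟨h.1.symm, h.2.symm⟩⟩
  loopless := ⟨fun _ h => h.1 rfl⟩

theorem good_6_4 : Good 6 4 := by
  refine ⟨M3, (TF_iff _).2 ?_, (AL_iff M3 3).2 ?_⟩
  · have : ∀ a b c : Fin 6, (a ≠ b ∧ a.val / 2 = b.val / 2) → (b ≠ c ∧ b.val / 2 = c.val / 2) →
      ¬ (a ≠ c ∧ a.val / 2 = c.val / 2) := by decide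
    exact this
  · intro S hS
    have h1 : (S.image (fun x : Fin 6 => x.val / 2)).card = S.card := by
      apply Finset.card_image_of_injOn
      intro x hx y hy hxy
      by_contra hne
      exact hS x hx y hy ⟨hne, hxy⟩
    have h2 : (S.image (fun x : Fin 6 => x.val / 2)) ⊆ Finset.range 3 := by
      intro z hz
      rw [Finset.mem_image] at hz
      obtain ⟨x, _, rfl⟩ := hz
      rw [Finset.mem_range]
      omega
    have h3 := Finset.card_le_card h2
    rw [Finset.card_range] at h3
    omega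

/-- the main result, in terms of the function `R` -/
theorem main (R : ℕ → ℕ) (hR : ∀ t : ℕ, R t = sInf {n : ℕ | ∀ G : SimpleGraph (Fin n),
    ¬ G.CliqueFree 3 ∨ ¬ Gᶜ.CliqueFree t}) (t : ℕ) (ht : 4 ≤ t) : R t + 4 ≤ R (t + 1) := by
  have hset : ∀ t n : ℕ, n ∈ {n : ℕ | ∀ G : SimpleGraph (Fin n),
      ¬ G.CliqueFree 3 ∨ ¬ Gᶜ.CliqueFree t} ↔ ¬ Good n t := by
    intro t n
    rw [Set.mem_setOf_eq, Good]
    push Not
    exact forall_congr' fun G => imp_iff_not_or.symm
  have hgood : ∀ t n : ℕ, n < R t ↔ Good n t := by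
    intro t n
    constructor
    · intro h
      by_contra hng
      rw [hR] at h
      exact Nat.notMem_of_lt_sInf h ((hset t n).2 hng)
    · intro h
      by_contra hlt
      push Not at hlt
      have hne : {n : ℕ | ∀ G : SimpleGraph (Fin n),
          ¬ G.CliqueFree 3 ∨ ¬ Gᶜ.CliqueFree t}.Nonempty := by
        obtain ⟨N, hN⟩ := not_good_large t
        exact ⟨N, (hset t N).2 hN⟩
      have hmem := Nat.sInf_mem hne
      rw [← hR t] at hmem
      exact (hset t _).1 hmem (good_mono h hlt)
  have h6 : 6 < R t := (hgood t 6).2 (good_mono' good_6_4 ht)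
  obtain ⟨G, h1, h2⟩ := (hgood t (R t - 1)).1 (by omega)
  obtain ⟨a, rfl⟩ : ∃ a, t = a + 1 := ⟨t - 1, by omega⟩
  have h3 := step G a ((TF_iff _).1 h1) ((AL_iff _ _).1 h2) (by rw [Fintype.card_fin]; omega)
  rw [Fintype.card_fin] at h3
  have h4 := (hgood _ _).2 h3
  omega

end Pool.Agent.W_MP_4f2e6f_h52
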